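import Pool.Agent.Helper37.RX.Defs3

/-!
# MP_93aa28_lc: exceptional sets (definition)
-/

set_option autoImplicit false

namespace Pool.Agent.Helper37.RZ

open Pool.Agent.Helper37.RW (Neutral)
open Pool.Agent.Helper37.RX (Ser)

/-- exceptional: the series `1 + ∑ z ^ j` is the inverse of a polynomial, `S` is not neutral, and there
are sets `I`, `J` of natural numbers, both of them containing `0`, all of whose sums `i + j` are `0` or in
`S`, such that every number `B` which is at least as large as some positive element of `S` satisfies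
`i, j ≤ B < i + j` for some `i` in `I` and some `j` in `J` -/
def Exceptional (S : Set ℕ) : Prop :=
  (∃ u : Polynomial ℂ, (u : PowerSeries ℂ) * Ser S = 1) ∧ ¬ Neutral S ∧
    ∃ I J : Set ℕ, 0 ∈ I ∧ 0 ∈ J ∧ (∀ i ∈ I, ∀ j ∈ J, i + j ∈ insert 0 S) ∧
      ∀ B, (∃ d ∈ S, 0 < d ∧ d ≤ B) → ∃ i ∈ I, ∃ j ∈ J, i ≤ B ∧ j ≤ B ∧ B < i + j

end Pool.Agent.Helper37.RZ
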