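import Pool.Agent.Helper37.RY.A
import Pool.Agent.Helper37.RZ.Defs

/-!
# Removing the long runs of one letter, with the smaller class of exceptional sets
-/

set_option autoImplicit false

namespace Pool.Agent.Helper37.RZ

open Pool.Agent.Helper31.BD
open Pool.Agent.Helper37.RV (pr pr_self pr_ne pr_append pr_rep pr_free Complete RunLang Ez)
open Pool.Agent.Helper37.RU (tl tl_self tl_ne tl_append tl_rep tl_last exists_rep)
open Pool.Agent.Helper37.RX hiding Exceptional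
open Pool.Agent.Helper37.RY (Tail Head tail_head tail_zero head_zero shrink_gen)

variable {S : ℕ → Set ℕ} {n : ℕ}

/-- the condition on a set which allows the removal of the long runs -/
def Cut (S : Set ℕ) : Prop :=
  ∀ I J : Set ℕ, 0 ∈ I → 0 ∈ J → (∀ i ∈ I, ∀ j ∈ J, i + j ∈ insert 0 S) →
    ∃ B, (∃ d ∈ S, 0 < d ∧ d ≤ B) ∧ ∀ i ∈ I, ∀ j ∈ J, i ≤ B → j ≤ B → i + j ≤ B

theorem shrink_cut {C : Finset (List ℕ)} (hC : UD C) (hL : RunLang n S = Fac C) (hn : 3 ≤ n)
    (hne : ∀ a < n, ∃ j ∈ S a, 0 < j) (c : ℕ) (hc : c < n) (h : Cut (S c)) :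
    ∃ B, (∃ j ∈ S c, 0 < j ∧ j ≤ B) ∧ ∃ C' : Finset (List ℕ), UD C' ∧
      RunLang n (Function.update S c {j | j ∈ S c ∧ j ≤ B}) = Fac C' := by
  classical
  let J : Set ℕ := {j | Head C c j ∨ (0 < j ∧ List.replicate j c ∈ C)}
  let I : Set ℕ := {i | ∀ j ∈ J, i + j ∈ Ez S c}
  have hpow : ∀ k, 0 < k → List.replicate k c ∈ C → ∀ e ∈ Ez S c, e + k ∈ Ez S c := by
    intro k hk0 hk e he
    rcases Nat.eq_zero_or_pos e with h1 | h1
    · rw [h1, Nat.zero_add]
      exact Or.inr (power_mem hC hL hn hne c k hk0 hk)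
    · exact Or.inr (closure hL (by omega) hne c k hc hk0 hk e (ez_pos he h1) h1)
  have hJ0 : (0 : ℕ) ∈ J := Or.inl (head_zero hC hL hn hne c)
  have hJE : ∀ j ∈ J, j ∈ Ez S c := by
    rintro j (hj | ⟨hj0, hj⟩)
    · have := tail_head hL (tail_zero hC hL hn hne c) hj
      rwa [Nat.zero_add] at this
    · have := hpow j hj0 hj 0 (ez0 c)
      rwa [Nat.zero_add] at this
  have hI0 : (0 : ℕ) ∈ I := by
    intro j hj
    rw [Nat.zero_add]
    exact hJE j hj
  have hIE : ∀ i ∈ I, i ∈ Ez S c := by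
    intro i hi
    have := hi 0 hJ0
    rwa [Nat.add_zero] at this
  have hTI : ∀ i, Tail C c i → i ∈ I := by
    intro i hi j hj
    rcases hj with hj | ⟨hj0, hj⟩
    · exact tail_head hL hi hj
    · refine hpow j hj0 hj i ?_
      have := tail_head hL hi (head_zero hC hL hn hne c)
      rwa [Nat.add_zero] at this
  have hIk : ∀ k, 0 < k → List.replicate k c ∈ C → ∀ i ∈ I, i + k ∈ I := by
    intro k hk0 hk i hi j hj
    have := hpow k hk0 hk _ (hi j hj)
    have h2 : i + k + j = i + j + k := by omega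
    rw [h2]
    exact this
  obtain ⟨B, hB1, hB2⟩ := h I J hI0 hJ0 (fun i hi j hj => hi j hj)
  refine ⟨B, hB1, ?_⟩
  refine shrink_gen hC hL hn hne c B hB1 (fun i j hi hj => hB2 i (hTI i hi) j (Or.inl hj)) ?_
  intro k hk0 hk
  by_contra hcon
  have hkB : k ≤ B := by omega
  have key : ∀ t, ∃ i ∈ I, t ≤ i ∧ i ≤ B := by
    intro t
    induction t with
    | zero => exact ⟨0, hI0, le_rfl, Nat.zero_le _⟩
    | succ t ih =>
      obtain ⟨i, hi, hti, hiB⟩ := ih
      exact ⟨i + k, hIk k hk0 hk i hi, by omega, hB2 i hi k (Or.inr ⟨hk0, hk⟩) hiB hkB⟩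
  obtain ⟨i, hi, h1, h2⟩ := key (B + 1)
  omega

/-- making the series of one letter have a zero -/
theorem fix_cut {n : ℕ} {S : ℕ → Set ℕ} {C : Finset (List ℕ)} (hC : UD C)
    (hL : RunLang n S = Fac C) (hn : 3 ≤ n) (hne : ∀ a < n, ∃ j ∈ S a, 0 < j) (c : ℕ)
    (hc : c < n) (h : HZ (Ez S c) ∨ Cut (S c)) :
    ∃ (S' : ℕ → Set ℕ) (C' : Finset (List ℕ)), UD C' ∧ RunLang n S' = Fac C' ∧
      (∀ a < n, ∃ j ∈ S' a, 0 < j) ∧ HZ (Ez S' c) ∧ ∀ a, a ≠ c → S' a = S a := by
  classical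
  rcases h with h | h
  · exact ⟨S, C, hC, hL, hne, h, fun _ _ => rfl⟩
  · obtain ⟨B, h1, C', h3, h4⟩ := shrink_cut hC hL hn hne c hc h
    refine ⟨_, C', h3, h4, ?_, ?_, fun a ha => Function.update_of_ne ha ..⟩
    · intro a ha
      by_cases hac : a = c
      · subst hac
        rw [Function.update_self]
        obtain ⟨j, k1, k2, k3⟩ := h1
        exact ⟨j, ⟨k1, k3⟩, k2⟩
      · rw [Function.update_of_ne hac]
        exact hne a ha
    · unfold Ez
      rw [Function.update_self]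
      obtain ⟨j, k1, k2, k3⟩ := h1
      refine hz_fin ?_ ⟨j, Or.inr ⟨k1, k3⟩, k2⟩
      refine Set.Finite.insert 0 ((Set.finite_le_nat B).subset fun j hj => hj.2)

/-- the three kinds of sets -/
theorem kinds2 {S : Set ℕ} (hS : Closed S) (hne : ∃ j ∈ S, 0 < j)
    (hN : ¬ Pool.Agent.Helper37.RW.Neutral S) (hE : ¬ Exceptional S) :
    HZ (insert 0 S) ∨ Cut S := by
  rcases hS with h | ⟨k, hk, hk0, hcl⟩
  · left
    obtain ⟨j, hj, hj0⟩ := hne
    exact hz_fin (h.insert 0) ⟨j, Or.inr hj, hj0⟩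
  · have h1 : ∀ j ∈ insert 0 S, k + j ∈ insert 0 S := by
      rintro j (hj | hj)
      · rw [hj]
        exact Or.inr hk
      · rw [Nat.add_comm]
        exact Or.inr (hcl j hj)
    rcases hz_or_closed k hk0 h1 with h2 | h2
    · exact Or.inl h2
    · right
      intro I J hI hJ hIJ
      by_contra hcon
      push Not at hcon
      exact hE ⟨by rw [ser_eq]; exact h2, hN, I, J, hI, hJ, hIJ, hcon⟩

end Pool.Agent.Helper37.RZ
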